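import Pool.Agent.H28.N6.Targets

/-!
# Row DCH2: nonnegative in the end, uniformly on compact sets without roots
-/

set_option autoImplicit false

open MeasureTheory Pool.Agent.H28.N6 Topology

namespace Pool.Agent.H89.N6D

theorem pf_CH2 (hVLC : T_VLC) (hPOS : T_POS) : T_CH2 := by
  intro F _ _ _ _ _ D h2 A B hA hB Q hQ hdet hiso
  refine hQ.induction_on (p := fun S : Set F => ∃ m0 : ℕ, ∀ m, m0 ≤ m → ∀ t ∈ S,
    0 ≤ TT D.q (V D (A + t • B) 0) m) ?_ ?_ ?_ ?_
  · exact ⟨0, fun m _ t ht => absurd ht (Set.notMem_empty t)⟩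
  · rintro S T hST ⟨m0, h⟩
    exact ⟨m0, fun m hm t ht => h m hm t (hST ht)⟩
  · rintro S T ⟨m0, h⟩ ⟨m1, h'⟩
    refine ⟨max m0 m1, fun m hm t ht => ?_⟩
    rcases ht with ht | ht
    · exact h m ((le_max_left _ _).trans hm) t ht
    · exact h' m ((le_max_right _ _).trans hm) t ht
  · intro t ht
    obtain ⟨δ, hδ, h⟩ := hVLC F D h2 A B hA hB t (hdet t ht)
    obtain ⟨⟨m0, hm0⟩, -⟩ := hPOS F D h2 (A + t • B)
      (by rw [Matrix.transpose_add, Matrix.transpose_smul, hA, hB]) (hdet t ht) (hiso t ht)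
    refine ⟨Metric.ball t δ, mem_nhdsWithin_of_mem_nhds (Metric.ball_mem_nhds t hδ), m0,
      fun m hm s hs => ?_⟩
    rw [Metric.mem_ball, dist_eq_norm] at hs
    have h3 : V D (A + s • B) 0 = V D (A + t • B) 0 := funext (h s hs).1
    rw [h3]
    exact hm0 m hm

end Pool.Agent.H89.N6D
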