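import Pool.Agent.H28.N6.Targets

/-!
# Row DSVA: from a degenerate member with an isotropic 3-space to a nondegenerate one
-/

set_option autoImplicit false

open MeasureTheory Pool.Agent.H28.N6

namespace Pool.Agent.H89.N6D

section

variable {F : Type} [Field F]

lemma sva_dp_eval {ι : Type} [Fintype ι] [DecidableEq ι] (A B : Matrix ι ι F) (t : F) :
    (dp A B).eval t = (A + t • B).det := by
  unfold dp
  rw [← Polynomial.coe_evalRingHom, RingHom.map_det]
  refine congrArg Matrix.det ?_
  ext i j
  simp
  exact mul_comm _ _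

lemma sva_dp_comp {ι : Type} [Fintype ι] [DecidableEq ι] (A B : Matrix ι ι F) (e : F) :
    dp (A + e • B) B = (dp A B).comp (Polynomial.X + Polynomial.C e) := by
  unfold dp
  rw [← Polynomial.coe_compRingHom_apply, RingHom.map_det]
  refine congrArg Matrix.det ?_
  ext1 i j
  simp only [Matrix.add_apply, Matrix.map_apply, Matrix.smul_apply, smul_eq_mul, map_add, map_mul,
    RingHom.mapMatrix_apply, Polynomial.coe_compRingHom_apply, Polynomial.C_comp,
    Polynomial.X_comp]
  ring

lemma sva_deriv {ι : Type} [Fintype ι] [DecidableEq ι] (A B : Matrix ι ι F) (e : F) :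
    (dp (A + e • B) B).derivative.eval 0 = (dp A B).derivative.eval e := by
  rw [sva_dp_comp, Polynomial.derivative_comp]
  simp

lemma sva_qf_add {ι : Type} [Fintype ι] (G G' : Matrix ι ι F) (c : F) (z : ι → F) :
    qf (G + c • G') z = qf G z + c * qf G' z := by
  unfold qf
  rw [Matrix.add_mulVec, Matrix.smul_mulVec, dotProduct_add, dotProduct_smul, smul_eq_mul]

lemma sva_polar {ι : Type} [Fintype ι] (G : Matrix ι ι F) (hG : G.transpose = G) (z z' : ι → F) :
    qf G (z + z') = qf G z + qf G z' + 2 * dotProduct z' (G.mulVec z) := by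
  unfold qf
  have h1 : dotProduct z (G.mulVec z') = dotProduct z' (G.mulVec z) := by
    rw [Matrix.dotProduct_mulVec, dotProduct_comm, ← Matrix.mulVec_transpose, hG]
  rw [Matrix.mulVec_add, add_dotProduct, dotProduct_add, dotProduct_add, h1]
  ring

/-- subspaces of given dimension -/
lemma sva_sub {V : Type} [AddCommGroup V] [Module F V] [FiniteDimensional F V]
    (W : Submodule F V) (k : ℕ) (h : k ≤ Module.finrank F W) :
    ∃ W' : Submodule F V, W' ≤ W ∧ Module.finrank F W' = k := by
  set b := Module.finBasis F W with hb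
  have hli : LinearIndependent F (fun i : Fin k => (b (Fin.castLE h i) : V)) :=
    (b.linearIndependent.map' W.subtype (Submodule.ker_subtype W)).comp _
      (Fin.castLE_injective h)
  refine ⟨Submodule.span F (Set.range fun i : Fin k => (b (Fin.castLE h i) : V)), ?_, ?_⟩
  · rw [Submodule.span_le]
    rintro _ ⟨i, rfl⟩
    exact (b (Fin.castLE h i)).2
  · rw [finrank_span_eq_card hli, Fintype.card_fin]

end

theorem pf_SVA (hNF7 : T_NF7) (hNFS : T_NFS) : T_SVA := by
  intro F _ _ _ h2 A B hA hB e he0 he1 ⟨W0, hW0, hz0⟩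
  have hRs : (A + e • B).transpose = A + e • B := by
    rw [Matrix.transpose_add, Matrix.transpose_smul, hA, hB]
  obtain ⟨M, R6, S6, s, hM, hR6, hS6, hR6d, hs, hq⟩ := hNF7 F h2 (A + e • B) B hRs hB
    (by rw [sva_dp_comp, Polynomial.eval_comp]; simpa using he0) (by rw [sva_deriv]; exact he1)
  have hMinj : Function.Injective M.mulVecLin := by
    rw [← LinearMap.ker_eq_bot, LinearMap.ker_eq_bot']
    intro v hv
    exact Matrix.eq_zero_of_mulVec_eq_zero hM hv
  have hMsurj : Function.Surjective M.mulVecLin := LinearMap.injective_iff_surjective.1 hMinj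
  -- the image in the rank six part
  set tl : (Fin 7 → F) →ₗ[F] (Fin 6 → F) := LinearMap.funLeft F F Fin.succ with htl
  have htla : ∀ z, tl z = Fin.tail z := fun z => rfl
  set W1 : Submodule F (Fin 7 → F) := W0.comap M.mulVecLin with hW1
  have hf1 : Module.finrank F W1 = 3 := by
    have e1 : W1.map M.mulVecLin = W0 := Submodule.map_comap_eq_of_surjective hMsurj W0
    rw [← hW0, ← e1]
    exact (Submodule.equivMapOfInjective M.mulVecLin hMinj W1).finrank_eq
  have hf2 : 2 ≤ Module.finrank F (W1.map tl) := by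
    have h3 := LinearMap.finrank_range_add_finrank_ker (tl.domRestrict W1)
    rw [LinearMap.range_domRestrict, hf1] at h3
    have h4 : Module.finrank F (LinearMap.ker (tl.domRestrict W1)) ≤ 1 := by
      have h5 : Function.Injective (((LinearMap.proj (0 : Fin 7) : (Fin 7 → F) →ₗ[F] F).comp
          W1.subtype).comp (LinearMap.ker (tl.domRestrict W1)).subtype) := by
        refine (injective_iff_map_eq_zero _).2 ?_
        rintro ⟨⟨z, hz⟩, hz'⟩ h0
        have h6 : z 0 = 0 := h0
        have h7 : tl z = 0 := hz'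
        ext i
        refine Fin.cases h6 (fun i => ?_) i
        exact congrFun h7 i
      have h8 := LinearMap.finrank_le_finrank_of_injective h5
      rwa [Module.finrank_self] at h8
    omega
  obtain ⟨W3, hW3, hf3⟩ := sva_sub (W1.map tl) 2 hf2
  have hiso : IsoSp R6 2 := by
    refine ⟨W3, hf3, fun y hy => ?_⟩
    obtain ⟨z, hz, rfl⟩ := Submodule.mem_map.1 (hW3 hy)
    rw [htla, ← (hq z).1]
    exact hz0 _ hz
  obtain ⟨u, hu, hud, W, hW, hWz⟩ := hNFS F h2 R6 S6 s hR6 hS6 hR6d hs hiso
  have e2 : A + (e + u) • B = (A + e • B) + u • B := by rw [add_smul, add_assoc]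
  have hval : ∀ z : Fin 7 → F, qf (A + (e + u) • B) (M.mulVec z) =
      u * s * z 0 ^ 2 + qf (R6 + u • S6) (Fin.tail z) := by
    intro z
    rw [e2, sva_qf_add, (hq z).1, (hq z).2, sva_qf_add]
    ring
  refine ⟨e + u, ?_, W.map M.mulVecLin, ?_, ?_⟩
  · intro hdet
    obtain ⟨x, hx0, hx⟩ := Matrix.exists_mulVec_eq_zero_iff.2 hdet
    obtain ⟨z, rfl⟩ := hMsurj x
    have hTs : (A + (e + u) • B).transpose = A + (e + u) • B := by
      rw [Matrix.transpose_add, Matrix.transpose_smul, hA, hB]
    have hGs : (R6 + u • S6).transpose = R6 + u • S6 := by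
      rw [Matrix.transpose_add, Matrix.transpose_smul, hR6, hS6]
    have hpol : ∀ z' : Fin 7 → F, u * s * (z 0 * z' 0) +
        dotProduct (Fin.tail z') ((R6 + u • S6).mulVec (Fin.tail z)) = 0 := by
      intro z'
      have h3 := sva_polar (A + (e + u) • B) hTs (M.mulVec z) (M.mulVec z')
      have h4 : (A + (e + u) • B).mulVec (M.mulVec z) = 0 := hx
      rw [h4, dotProduct_zero, mul_zero, add_zero, ← Matrix.mulVec_add, hval, hval, hval] at h3
      have h5 : Fin.tail (z + z') = Fin.tail z + Fin.tail z' := rfl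
      rw [h5, sva_polar _ hGs, Pi.add_apply] at h3
      have h6 : 2 * (u * s * (z 0 * z' 0) +
          dotProduct (Fin.tail z') ((R6 + u • S6).mulVec (Fin.tail z))) = 0 := by
        linear_combination h3
      exact (mul_eq_zero.1 h6).resolve_left h2
    have hz0' : z 0 = 0 := by
      have h3 := hpol (Fin.cons 1 0)
      rw [Fin.tail_cons, zero_dotProduct, add_zero, Fin.cons_zero, mul_one] at h3
      exact (mul_eq_zero.1 h3).resolve_left (mul_ne_zero hu hs)
    have hzt : Fin.tail z = 0 := by
      refine Matrix.eq_zero_of_mulVec_eq_zero hud ?_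
      refine dotProduct_eq_zero _ fun w => ?_
      have h3 := hpol (Fin.cons 0 w)
      rw [Fin.tail_cons, hz0', zero_mul, mul_zero, zero_add] at h3
      rw [dotProduct_comm]
      exact h3
    apply hx0
    have h3 : z = 0 := by
      ext i
      refine Fin.cases hz0' (fun i => ?_) i
      exact congrFun hzt i
    rw [h3, map_zero]
  · rw [← (Submodule.equivMapOfInjective M.mulVecLin hMinj W).finrank_eq]
    exact hW
  · intro x hx
    obtain ⟨z, hz, rfl⟩ := Submodule.mem_map.1 hx
    rw [Matrix.mulVecLin_apply, hval]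
    exact hWz z hz

end Pool.Agent.H89.N6D
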